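import Mathlib

namespace Pool.Agent.H.MP_6eb165_an

open Metric

section general

variable {X : Type} [NormedAddCommGroup X] [NormedSpace ℂ X]

abbrev PP (X : Type) [NormedAddCommGroup X] [NormedSpace ℂ X] : Type :=
  {p : X × (X →L[ℂ] ℂ) // ‖p.1‖ = 1 ∧ ‖p.2‖ = 1 ∧ p.2 p.1 = 1}

noncomputable def v {k : ℕ} (A : ContinuousMultilinearMap ℂ (fun _ : Fin k => X) X) : ℝ :=
  ⨆ p : PP X, ‖p.1.2 (A (fun _ => p.1.1))‖

def S (X : Type) [NormedAddCommGroup X] [NormedSpace ℂ X] (k : ℕ) : Set ℝ :=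
  {c : ℝ | 0 ≤ c ∧ ∀ (A : ContinuousMultilinearMap ℂ (fun _ : Fin k => X) X) (y : X), ‖y‖ ≤ 1 →
    c * ‖A (fun _ => y)‖ ≤ v A}

theorem le_v {k : ℕ} (A : ContinuousMultilinearMap ℂ (fun _ : Fin k => X) X) (x : X)
    (f : X →L[ℂ] ℂ) (hx : ‖x‖ = 1) (hf : ‖f‖ = 1) (h : f x = 1) : ‖f (A fun _ => x)‖ ≤ v A := by
  refine le_ciSup (f := fun p : PP X => ‖p.1.2 (A (fun _ => p.1.1))‖) ⟨‖A‖, ?_⟩
    ⟨(x, f), hx, hf, h⟩
  rintro _ ⟨⟨⟨x, f⟩, hx, hf, -⟩, rfl⟩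
  refine (f.le_opNorm _).trans ?_
  have := A.le_opNorm fun _ => x
  simp only at hx hf
  simpa [hx, hf] using this

theorem v_le {k : ℕ} (A : ContinuousMultilinearMap ℂ (fun _ : Fin k => X) X) (c : ℝ) (c0 : 0 ≤ c)
    (h : ∀ (x : X) (f : X →L[ℂ] ℂ), ‖x‖ = 1 → ‖f‖ = 1 → f x = 1 → ‖f (A fun _ => x)‖ ≤ c) :
    v A ≤ c :=
  Real.iSup_le (fun p => h _ _ p.2.1 p.2.2.1 p.2.2.2) c0

theorem v_nonneg {k : ℕ} (A : ContinuousMultilinearMap ℂ (fun _ : Fin k => X) X) : 0 ≤ v A :=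
  Real.iSup_nonneg fun _ => norm_nonneg _

theorem to_sphere [Nontrivial X] {k : ℕ} (A : ContinuousMultilinearMap ℂ (fun _ : Fin k => X) X)
    (y : X) (hy : ‖y‖ ≤ 1) : ∃ x : X, ‖x‖ = 1 ∧ ‖A fun _ => y‖ ≤ ‖A fun _ => x‖ := by
  obtain ⟨x, hx, t, ht, rfl⟩ : ∃ x : X, ‖x‖ = 1 ∧ ∃ t : ℂ, ‖t‖ ≤ 1 ∧ y = t • x := by
    by_cases h : y = 0
    · obtain ⟨x, hx⟩ := exists_norm_eq X zero_le_one
      exact ⟨x, hx, 0, by simp, by simp [h]⟩
    · have h' : (‖y‖ : ℂ) ≠ 0 := by simpa using h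
      refine ⟨(‖y‖ : ℂ)⁻¹ • y, norm_smul_inv_norm h, ‖y‖, by simpa using hy, ?_⟩
      rw [smul_inv_smul₀ h']
  refine ⟨x, hx, ?_⟩
  rw [A.map_smul_univ (fun _ => t) fun _ => x, norm_smul]
  refine mul_le_of_le_one_left (norm_nonneg _) ?_
  simpa using pow_le_one₀ (norm_nonneg _) ht

theorem S_succ [Nontrivial X] (k : ℕ) : S X (k + 1) ⊆ S X k := by
  rintro c ⟨c0, hc⟩
  refine ⟨c0, fun A y hy => ?_⟩
  obtain ⟨x, hx, h⟩ := to_sphere A y hy
  obtain ⟨g, hg, hgx⟩ := exists_dual_vector ℂ x (by simp [hx])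
  let B : ContinuousMultilinearMap ℂ (fun _ : Fin (k + 1) => X) X :=
    ContinuousLinearMap.uncurryLeft (Ei := fun _ : Fin (k + 1) => X) (g.smulRight A)
  have Ba : ∀ z : X, B (fun _ => z) = g z • A fun _ => z := fun z => rfl
  have h1 := hc B x hx.le
  rw [Ba, hgx, hx, RCLike.ofReal_one, one_smul] at h1
  refine (mul_le_mul_of_nonneg_left h c0).trans (h1.trans ?_)
  refine v_le B _ (v_nonneg A) fun z f hz hf hfz => ?_
  rw [Ba, map_smul, norm_smul]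
  refine (mul_le_of_le_one_left (norm_nonneg _) ?_).trans (le_v A z f hz hf hfz)
  simpa [hg, hz] using g.le_opNorm z

end general

def X : Submodule ℂ (Fin 3 → ℂ) where
  carrier := {w | w 0 + w 1 + w 2 = 0}
  add_mem' := fun {a b} ha hb => by
    simp only [Set.mem_ofPred_eq, Pi.add_apply] at *; linear_combination ha + hb
  zero_mem' := by simp
  smul_mem' := fun c a ha => by
    simp only [Set.mem_ofPred_eq, Pi.smul_apply, smul_eq_mul] at *; linear_combination c * ha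

noncomputable def pr (i : Fin 3) : X →L[ℂ] ℂ := (ContinuousLinearMap.proj i).comp X.subtypeL

theorem pr_le (i : Fin 3) (x : X) : ‖x.1 i‖ ≤ ‖x‖ := norm_le_pi_norm x.1 i

theorem norm_le (x : X) (c : ℝ) (c0 : 0 ≤ c) (h : ∀ i, ‖x.1 i‖ ≤ c) : ‖x‖ ≤ c :=
  (pi_norm_le_iff_of_nonneg c0).2 h

theorem coord_le {k : ℕ} (A : ContinuousMultilinearMap ℂ (fun _ : Fin k => X) X) (x : X)
    (hx : ‖x‖ = 1) (i : Fin 3) (hi : ‖x.1 i‖ = 1) : ‖(A fun _ => x).1 i‖ ≤ v A := by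
  have h0 : x.1 i ≠ 0 := by rw [← norm_pos_iff, hi]; exact one_pos
  have h1 : ((x.1 i)⁻¹ • pr i) x = 1 := inv_mul_cancel₀ h0
  have h2 : ∀ z : X, ‖((x.1 i)⁻¹ • pr i) z‖ = ‖z.1 i‖ := fun z => by
    show ‖(x.1 i)⁻¹ * z.1 i‖ = _
    rw [norm_mul, norm_inv, hi, inv_one, one_mul]
  have h3 : ‖(x.1 i)⁻¹ • pr i‖ = 1 := by
    refine le_antisymm (ContinuousLinearMap.opNorm_le_bound _ zero_le_one fun z => ?_) ?_
    · rw [h2, one_mul]; exact pr_le i z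
    · simpa [h1, hx] using ((x.1 i)⁻¹ • pr i).le_opNorm x
  rw [← h2]
  exact le_v A x _ hx h3 h1

theorem three (i j l : Fin 3) (h1 : i ≠ j) (h2 : i ≠ l) (h3 : j ≠ l) :
    (∀ m, m = i ∨ m = j ∨ m = l) ∧ ∀ w : Fin 3 → ℂ, w i + w j + w l = w 0 + w 1 + w 2 := by
  refine ⟨by revert i j l; decide, fun w => ?_⟩
  fin_cases i <;> fin_cases j <;> fin_cases l <;> simp at h1 h2 h3 ⊢ <;> ring

theorem two_le {k : ℕ} (A : ContinuousMultilinearMap ℂ (fun _ : Fin k => X) X) (x : X)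
    (hx : ‖x‖ = 1) (i j : Fin 3) (hij : i ≠ j) (hi : ‖x.1 i‖ = 1) (hj : ‖x.1 j‖ = 1) :
    ‖A fun _ => x‖ ≤ 2 * v A := by
  obtain ⟨l, h2, h3⟩ := (by decide : ∀ i j : Fin 3, ∃ l, i ≠ l ∧ j ≠ l) i j
  obtain ⟨t1, t2⟩ := three i j l hij h2 h3
  have a := coord_le A x hx i hi
  have b := coord_le A x hx j hj
  have v0 := v_nonneg A
  refine norm_le _ _ (by positivity) fun m => ?_
  rcases t1 m with rfl | rfl | rfl
  · linarith
  · linarith
  · have e : (A fun _ => x).1 m = -((A fun _ => x).1 i + (A fun _ => x).1 j) := by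
      have := (t2 (A fun _ => x).1).trans (A fun _ => x).2
      linear_combination this
    rw [e, norm_neg]
    exact (norm_add_le _ _).trans (by linarith)

def y0 : X := ⟨![1, -1, 0], by simp [X]⟩

theorem y0_le : ‖y0‖ ≤ 1 := norm_le _ _ zero_le_one fun i => by fin_cases i <;> simp [y0]

instance : Nontrivial X := ⟨y0, 0, fun h => by simpa [y0] using congrArg (fun w : X => w.1 0) h⟩

theorem half_mem (k : ℕ) : (1 / 2 : ℝ) ∈ S X k := by
  refine ⟨by norm_num, fun A y hy => ?_⟩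
  obtain ⟨x, hx, h⟩ := to_sphere A y hy
  suffices ‖A fun _ => x‖ ≤ 2 * v A by linarith
  obtain ⟨i, hi⟩ : ∃ i, ‖x.1 i‖ = 1 := by
    by_contra hn
    push Not at hn
    have : ‖x.1‖ < 1 := (pi_norm_lt_iff one_pos).2 fun i =>
      lt_of_le_of_ne (hx ▸ pr_le i x) (hn i)
    exact absurd hx this.ne
  obtain ⟨j, l, h1, h2, h3⟩ := (by decide : ∀ i : Fin 3, ∃ j l, i ≠ j ∧ i ≠ l ∧ j ≠ l) i
  obtain ⟨t1, t2⟩ := three i j l h1 h2 h3
  by_cases hj : ‖x.1 j‖ = 1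
  · exact two_le A x hx i j h1 hi hj
  by_cases hl : ‖x.1 l‖ = 1
  · exact two_le A x hx i l h2 hi hl
  let e : X := ⟨Pi.single j 1 - Pi.single l 1, by
    show _ + _ + _ = (0 : ℂ)
    rw [← t2]; simp [h1, h2, h3, h3.symm]⟩
  have ei : ∀ z : ℂ, (x + z • e).1 i = x.1 i := fun z => by simp [e, h1, h2]
  have ej : ∀ z : ℂ, (x + z • e).1 j = x.1 j + z := fun z => by simp [e, h3]
  have el : ∀ z : ℂ, (x + z • e).1 l = x.1 l - z := fun z => by simp [e, h3.symm, sub_eq_add_neg]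
  let U : Set ℂ := {z | ‖x.1 j + z‖ < 1 ∧ ‖x.1 l - z‖ < 1}
  have U0 : (0 : ℂ) ∈ U :=
    ⟨by simpa using lt_of_le_of_ne (hx ▸ pr_le j x) hj,
      by simpa using lt_of_le_of_ne (hx ▸ pr_le l x) hl⟩
  have Ub : Bornology.IsBounded U := (isBounded_ball (x := x.1 l) (r := 1)).subset fun z hz => by
    rw [mem_ball, dist_comm, dist_eq_norm]; exact hz.2
  have c1 : Continuous fun z : ℂ => ‖x.1 j + z‖ := by fun_prop
  have c2 : Continuous fun z : ℂ => ‖x.1 l - z‖ := by fun_prop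
  have Uo : IsOpen U := (isOpen_lt c1 continuous_const).inter (isOpen_lt c2 continuous_const)
  have hd : Differentiable ℂ fun z : ℂ => A fun _ => x + z • e :=
    ((A.contDiff (n := 1)).differentiable one_ne_zero).comp (by fun_prop)
  obtain ⟨z, hz, hmax⟩ := Complex.exists_mem_frontier_isMaxOn_norm Ub ⟨0, U0⟩ hd.diffContOnCl
  have h0 : ‖A fun _ => x‖ ≤ ‖A fun _ => x + z • e‖ := by
    simpa using hmax (subset_closure U0)
  rw [Uo.frontier_eq] at hz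
  have hc : ‖x.1 j + z‖ ≤ 1 ∧ ‖x.1 l - z‖ ≤ 1 :=
    closure_minimal (t := {z | ‖x.1 j + z‖ ≤ 1 ∧ ‖x.1 l - z‖ ≤ 1}) (fun w hw => ⟨hw.1.le, hw.2.le⟩)
      ((isClosed_le c1 continuous_const).inter (isClosed_le c2 continuous_const)) hz.1
  have hn : ‖x + z • e‖ = 1 := by
    refine le_antisymm (norm_le _ _ zero_le_one fun m => ?_) ?_
    · rcases t1 m with rfl | rfl | rfl
      · rw [ei, hi]
      · rw [ej]; exact hc.1
      · rw [el]; exact hc.2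
    · have := pr_le i (x + z • e)
      rwa [ei, hi] at this
  refine h0.trans ?_
  by_cases q : ‖x.1 j + z‖ = 1
  · exact two_le A _ hn i j h1 (by rw [ei, hi]) (by rw [ej, q])
  · refine two_le A _ hn i l h2 (by rw [ei, hi]) ?_
    rw [el]
    by_contra q'
    exact hz.2 ⟨lt_of_le_of_ne hc.1 q, lt_of_le_of_ne hc.2 q'⟩

noncomputable def u0 : X := ⟨![1 / 2, 1 / 2, -1], by simp [X]; norm_num⟩

theorem S_one {c : ℝ} (hc : c ∈ S X 1) : c ≤ 9 / 10 := by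
  let T : X →L[ℂ] X := ((1 / 2 : ℂ) • (pr 0 - pr 1)).smulRight u0
  let A : ContinuousMultilinearMap ℂ (fun _ : Fin 1 => X) X :=
    (continuousMultilinearCurryFin1 ℂ X X).symm T
  have Aa : ∀ z : X, A (fun _ => z) = (1 / 2 * (z.1 0 - z.1 1)) • u0 := fun z => rfl
  have h := hc.2 A y0 y0_le
  have h1 : 1 ≤ ‖A fun _ => y0‖ := by
    have := pr_le 2 (A fun _ => y0)
    refine le_trans (le_of_eq ?_) this
    rw [Aa]
    norm_num [y0, u0]
    simp
  have h2 : v A ≤ 9 / 10 := by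
    refine v_le A _ (by norm_num) fun x f hx hf hfx => ?_
    obtain ⟨θ, hθ, e⟩ := RCLike.exists_norm_eq_mul_self (f (A fun _ => x))
    have e2 : f (x + θ • A fun _ => x) = ((1 + ‖f (A fun _ => x)‖ : ℝ) : ℂ) := by
      rw [map_add, map_smul, hfx, smul_eq_mul, ← e]; simp
    have e3 := f.le_opNorm (x + θ • A fun _ => x)
    rw [e2, hf, one_mul, Complex.norm_real, Real.norm_of_nonneg (by positivity)] at e3
    suffices ‖x + θ • A fun _ => x‖ ≤ 19 / 10 by linarith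
    have b0 : ‖x.1 0‖ ≤ 1 := hx ▸ pr_le 0 x
    have b1 : ‖x.1 1‖ ≤ 1 := hx ▸ pr_le 1 x
    have b2 : ‖x.1 2‖ ≤ 1 := hx ▸ pr_le 2 x
    have par := parallelogram_law_with_norm ℂ (x.1 0) (x.1 1)
    have s2 : ‖x.1 0 + x.1 1‖ = ‖x.1 2‖ := by
      rw [← norm_neg (x.1 2)]
      congr 1
      have : x.1 0 + x.1 1 + x.1 2 = 0 := x.2
      linear_combination this
    rw [s2] at par
    have n0 := norm_nonneg (x.1 0)
    have n1 := norm_nonneg (x.1 1)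
    have n2 := norm_nonneg (x.1 2)
    have n3 := norm_nonneg (x.1 0 - x.1 1)
    have d2 : ‖x.1 0 - x.1 1‖ ≤ 2 := (norm_sub_le _ _).trans (by linarith)
    have key : ‖x.1 2‖ + ‖x.1 0 - x.1 1‖ / 2 ≤ 19 / 10 := by
      by_contra hlt
      push Not at hlt
      nlinarith
    refine norm_le _ _ (by norm_num) fun i => ?_
    have : ‖(x + θ • A fun _ => x).1 i‖ ≤ ‖x.1 i‖ + ‖x.1 0 - x.1 1‖ / 2 * ‖u0.1 i‖ := by
      rw [Aa]
      refine (norm_add_le _ _).trans (le_of_eq ?_)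
      simp [hθ, div_eq_inv_mul]
    refine this.trans ?_
    fin_cases i <;> simp [u0] <;> linarith
  have := mul_le_mul_of_nonneg_left h1 hc.1
  linarith

theorem main : ∃ L : ℝ, Filter.Tendsto (fun k => sSup (S X k)) Filter.atTop (nhds L) ∧
    L ≠ 0 ∧ L ≠ 1 := by
  have sub : ∀ k, S X (k + 1) ⊆ S X 1 := by
    intro k
    induction k with
    | zero => exact subset_rfl
    | succ k ih => exact (S_succ _).trans ih
  have bd : ∀ k, BddAbove (S X (k + 1)) := fun k => ⟨9 / 10, fun c hc => S_one (sub k hc)⟩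
  have anti : Antitone fun k => sSup (S X (k + 1)) := antitone_nat_of_succ_le fun k =>
    csSup_le_csSup (bd k) ⟨_, half_mem _⟩ (S_succ _)
  have lo : ∀ k, 1 / 2 ≤ sSup (S X (k + 1)) := fun k => le_csSup (bd k) (half_mem _)
  have hi : ∀ k, sSup (S X (k + 1)) ≤ 9 / 10 := fun k =>
    csSup_le ⟨_, half_mem _⟩ fun c hc => S_one (sub k hc)
  have t := tendsto_atTop_ciInf anti ⟨1 / 2, by rintro _ ⟨k, rfl⟩; exact lo k⟩
  refine ⟨_, (Filter.tendsto_add_atTop_iff_nat 1).1 t, ?_, ?_⟩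
  · have := ge_of_tendsto' t lo
    exact fun h => by rw [h] at this; norm_num at this
  · have := le_of_tendsto' t hi
    exact fun h => by rw [h] at this; norm_num at this

end Pool.Agent.H.MP_6eb165_an
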